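import Mathlib

/-!
# MP_d3b86e_co: Builder can force every clique from graphs of arbitrarily large girth

The Builder-Chooser game: in each round Builder picks a matching `M` of the current graph `G`,
deletes it and joins a new vertex to all its endpoints (`grow G M`), then splits the edge set of
the new graph in two parts, and Chooser picks the part that survives.

We prove that `rho k g` is finite for all `k` and `g`, with a bound that does not depend on `g`
(the starting graph is a star forest).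
-/

namespace Pool.Agent.Results.MP_d3b86e_co.CliqueForcing

open SimpleGraph

/-- The graph `G - M + {w z : z an endpoint of M}` on `Option V`; the new vertex `w` is `none`. -/
def grow {V : Type} (G M : SimpleGraph V) : SimpleGraph (Option V) where
  Adj u v :=
    (∃ a b, u = some a ∧ v = some b ∧ G.Adj a b ∧ ¬ M.Adj a b) ∨
    (∃ a c, u = none ∧ v = some a ∧ M.Adj a c) ∨
    (∃ a c, u = some a ∧ v = none ∧ M.Adj a c)
  symm := ⟨by
    rintro u v (⟨a, b, rfl, rfl, h1, h2⟩ | ⟨a, c, rfl, rfl, h⟩ | ⟨a, c, rfl, rfl, h⟩)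
    · exact Or.inl ⟨b, a, rfl, rfl, h1.symm, fun h => h2 h.symm⟩
    · exact Or.inr (Or.inr ⟨a, c, rfl, rfl, h⟩)
    · exact Or.inr (Or.inl ⟨a, c, rfl, rfl, h⟩)⟩
  loopless := ⟨by
    rintro u (⟨a, b, rfl, h, h1, -⟩ | ⟨a, c, rfl, h, -⟩ | ⟨a, c, rfl, h, -⟩)
    · cases h; exact h1.ne rfl
    · cases h
    · cases h⟩

/-- `M` is (the edge set of) a matching of `G`: its edges are edges of `G` and no two of them
share an endpoint. -/
def IsMatchingOf {V : Type} (M G : SimpleGraph V) : Prop :=
  M ≤ G ∧ ∀ a b c, M.Adj a b → M.Adj a c → b = c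

/-- Builder has a strategy from `G` that guarantees, whatever Chooser does, that the graph
reached after exactly `t` rounds has property `P`. -/
def ForcesP (P : ∀ V : Type, SimpleGraph V → Prop) : ℕ → ∀ V : Type, SimpleGraph V → Prop
  | 0, V, G => P V G
  | t + 1, V, G => ∃ M : SimpleGraph V, IsMatchingOf M G ∧
      ∃ A B : SimpleGraph (Option V), A ⊔ B = grow G M ∧ Disjoint A B ∧
        ForcesP P t (Option V) A ∧ ForcesP P t (Option V) B

/-- `G` contains a copy of the complete graph on `k` vertices. -/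
def HasClique (k : ℕ) (V : Type) (G : SimpleGraph V) : Prop := ¬ G.CliqueFree k

/-- `tau k G`: the least `t` such that Builder can guarantee a `K_k` in the graph reached after
`t` rounds from `G` (`⊤` if there is none). -/
noncomputable def tau (k : ℕ) {V : Type} (G : SimpleGraph V) : ℕ∞ :=
  ⨅ (t : ℕ) (_ : ForcesP (HasClique k) t V G), (t : ℕ∞)

/-- `rho k g`: the minimum of `tau k G` over all finite graphs `G` of girth at least `g`. -/
noncomputable def rho (k g : ℕ) : ℕ∞ :=
  ⨅ (n : ℕ) (G : SimpleGraph (Fin n)) (_ : (g : ℕ∞) ≤ G.egirth), tau k G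

theorem forces_mono {P Q : ∀ V : Type, SimpleGraph V → Prop} (h : ∀ V G, P V G → Q V G) :
    ∀ (t : ℕ) (V : Type) (G : SimpleGraph V), ForcesP P t V G → ForcesP Q t V G
  | 0, _, _, hG => h _ _ hG
  | t + 1, _, _, ⟨M, hM, A, B, h1, h2, h3, h4⟩ =>
      ⟨M, hM, A, B, h1, h2, forces_mono h t _ A h3, forces_mono h t _ B h4⟩

theorem forces_comp {P : ∀ V : Type, SimpleGraph V → Prop} (n : ℕ) :
    ∀ (m : ℕ) (V : Type) (G : SimpleGraph V), ForcesP (ForcesP P n) m V G → ForcesP P (n + m) V G
  | 0, _, _, hG => hG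
  | m + 1, _, _, ⟨M, hM, A, B, h1, h2, h3, h4⟩ =>
      ⟨M, hM, A, B, h1, h2, forces_comp n m _ A h3, forces_comp n m _ B h4⟩

/-- `G` contains disjoint cliques indexed by `ι`, each with vertex set indexed by `C`, and every
vertex of them has private extra neighbours indexed by `Λ`. -/
def Has (C ι Λ : Type) (V : Type) (G : SimpleGraph V) : Prop :=
  ∃ φ : ι × C × Option Λ → V, Function.Injective φ ∧
    (∀ i a b, a ≠ b → G.Adj (φ (i, a, none)) (φ (i, b, none))) ∧
    (∀ i a l, G.Adj (φ (i, a, none)) (φ (i, a, some l)))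

/-- The intermediate states: the groups in `S` have been attached to their new vertices. -/
def St (C ι Λ : Type) (S : Set ι) (τ : Type) (V : Type) (G : SimpleGraph V) : Prop :=
  ∃ (φ : (ι × τ) × C × Option (Option Λ) → V) (x : S → V),
    Function.Injective φ ∧ Function.Injective x ∧ (∀ i p, x i ≠ φ p) ∧
    (∀ i t a b, a ≠ b → G.Adj (φ ((i, t), a, none)) (φ ((i, t), b, none))) ∧
    (∀ i t a l, G.Adj (φ ((i, t), a, none)) (φ ((i, t), a, some (some l)))) ∧
    (∀ i t a, i ∉ S → G.Adj (φ ((i, t), a, none)) (φ ((i, t), a, some none))) ∧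
    (∀ (i : S) t a o, (∀ l, o ≠ some (some l)) → G.Adj (x i) (φ ((i, t), a, o)))

theorem st_zero {C ι Λ τ : Type} {V : Type} {G : SimpleGraph V}
    (h : Has C (ι × τ) (Option Λ) V G) : St C ι Λ ∅ τ V G := by
  obtain ⟨φ, h1, h2, h3⟩ := h
  refine ⟨φ, fun i => i.2.elim, h1, fun i => i.2.elim, fun i => i.2.elim, fun i t => h2 (i, t),
    fun i t a l => h3 (i, t) a (some l), fun i t a _ => h3 (i, t) a none, fun i => i.2.elim⟩

theorem st_step {C ι Λ τ : Type} {S : Set ι} {i₀ : ι} (hi₀ : i₀ ∉ S) {V : Type}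
    {G : SimpleGraph V} (h : St C ι Λ S (Bool × τ) V G) :
    ForcesP (St C ι Λ (insert i₀ S) τ) 1 V G := by
  classical
  obtain ⟨φ, x, hφ, hx, hxφ, e1, e2, e3, e4⟩ := h
  let M : SimpleGraph V :=
    { Adj := fun u v => ∃ t a, (u = φ ((i₀, t), a, none) ∧ v = φ ((i₀, t), a, some none)) ∨
        (v = φ ((i₀, t), a, none) ∧ u = φ ((i₀, t), a, some none))
      symm := ⟨by
        rintro u v ⟨t, a, h | h⟩
        · exact ⟨t, a, Or.inr h⟩
        · exact ⟨t, a, Or.inl h⟩⟩
      loopless := ⟨by
        rintro u ⟨t, a, ⟨h1, h2⟩ | ⟨h1, h2⟩⟩ <;>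
        · have := hφ (h1.symm.trans h2)
          simp at this⟩ }
  have hM : IsMatchingOf M G := by
    refine ⟨?_, ?_⟩
    · rintro u v ⟨t, a, ⟨rfl, rfl⟩ | ⟨rfl, rfl⟩⟩
      · exact e3 _ _ _ hi₀
      · exact (e3 _ _ _ hi₀).symm
    · rintro u v w ⟨t, a, ⟨rfl, rfl⟩ | ⟨rfl, rfl⟩⟩ ⟨t', a', ⟨h1, rfl⟩ | ⟨rfl, h1⟩⟩
      · have := hφ h1
        simp only [Prod.mk.injEq, true_and, and_true] at this
        obtain ⟨rfl, rfl⟩ := this
        rfl
      · have := hφ h1
        simp at this
      · have := hφ h1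
        simp at this
      · have := hφ h1
        simp only [Prod.mk.injEq, true_and, and_true] at this
        obtain ⟨rfl, rfl⟩ := this
        rfl
  let D : Bool → Set (Option V) := fun β => {u | ∃ i t a o, u = some (φ ((i, (β, t)), a, o))}
  let X : Set (Option V) := {u | u = none ∨ ∃ i : S, u = some (x i)}
  let P := grow G M
  -- the structure survives in every subgraph `Q` that contains the relevant edges
  have key : ∀ (β : Bool) (Q : SimpleGraph (Option V)),
      (∀ u v, P.Adj u v → u ∈ D β → (v ∈ D β ∨ v ∈ X) → Q.Adj u v) →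
      St C ι Λ (insert i₀ S) τ (Option V) Q := by
    intro β Q hQ
    have hD : ∀ i t a o, some (φ ((i, (β, t)), a, o)) ∈ D β := fun i t a o => ⟨i, t, a, o, rfl⟩
    refine ⟨fun p => some (φ ((p.1.1, (β, p.1.2)), p.2)),
      fun i => if hi : (i : ι) ∈ S then some (x ⟨i, hi⟩) else none, ?_, ?_, ?_, ?_, ?_, ?_, ?_⟩
    · rintro ⟨⟨i, t⟩, q⟩ ⟨⟨i', t'⟩, q'⟩ h
      have := hφ (Option.some.inj h)
      simp only [Prod.mk.injEq, true_and] at this ⊢
      exact this
    · rintro ⟨i, hi⟩ ⟨i', hi'⟩ h
      simp only at h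
      by_cases h1 : i ∈ S <;> by_cases h2 : i' ∈ S
      · rw [dif_pos h1, dif_pos h2] at h
        have := hx (Option.some.inj h)
        simpa using this
      · rw [dif_pos h1, dif_neg h2] at h
        cases h
      · rw [dif_neg h1, dif_pos h2] at h
        cases h
      · have h3 : i = i₀ := (Set.mem_insert_iff.1 hi).resolve_right h1
        have h4 : i' = i₀ := (Set.mem_insert_iff.1 hi').resolve_right h2
        subst h3 h4
        rfl
    · rintro ⟨i, hi⟩ p
      simp only
      by_cases h1 : i ∈ S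
      · rw [dif_pos h1]
        intro h
        exact hxφ _ _ (Option.some.inj h)
      · rw [dif_neg h1]
        intro h
        cases h
    · intro i t a b hab
      refine hQ _ _ (Or.inl ⟨_, _, rfl, rfl, e1 _ _ _ _ hab, ?_⟩) (hD _ _ _ _)
        (Or.inl (hD _ _ _ _))
      rintro ⟨t', a', ⟨h1, h2⟩ | ⟨h1, h2⟩⟩
      · have := hφ h2
        simp at this
      · have := hφ h2
        simp at this
    · intro i t a l
      refine hQ _ _ (Or.inl ⟨_, _, rfl, rfl, e2 _ _ _ _, ?_⟩) (hD _ _ _ _)
        (Or.inl (hD _ _ _ _))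
      rintro ⟨t', a', ⟨h1, h2⟩ | ⟨h1, h2⟩⟩
      · have := hφ h2
        simp at this
      · have := hφ h1
        simp at this
    · intro i t a hi
      have hi' : i ≠ i₀ := fun h => hi (h ▸ Set.mem_insert _ _)
      have hiS : i ∉ S := fun h => hi (Set.mem_insert_of_mem _ h)
      refine hQ _ _ (Or.inl ⟨_, _, rfl, rfl, e3 _ _ _ hiS, ?_⟩) (hD _ _ _ _)
        (Or.inl (hD _ _ _ _))
      rintro ⟨t', a', ⟨h1, h2⟩ | ⟨h1, h2⟩⟩
      · have := hφ h1
        simp only [Prod.mk.injEq] at this
        exact hi' this.1.1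
      · have := hφ h2
        simp at this
    · rintro ⟨i, hi⟩ t a o ho
      simp only
      refine SimpleGraph.Adj.symm ?_
      by_cases h1 : i ∈ S
      · rw [dif_pos h1]
        refine hQ _ _ (Or.inl ⟨_, _, rfl, rfl, (e4 ⟨i, h1⟩ _ _ _ ho).symm, ?_⟩) (hD _ _ _ _)
          (Or.inr (Or.inr ⟨_, rfl⟩))
        rintro ⟨t', a', ⟨h2, h3⟩ | ⟨h2, h3⟩⟩
        · exact hxφ _ _ h3
        · exact hxφ _ _ h2
      · rw [dif_neg h1]
        have h3 : i = i₀ := (Set.mem_insert_iff.1 hi).resolve_right h1
        subst h3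
        refine hQ _ _ (Or.inr (Or.inr ?_)) (hD _ _ _ _) (Or.inr (Or.inl rfl))
        rcases o with _ | _ | l
        · exact ⟨_, _, rfl, rfl, (β, t), a, Or.inl ⟨rfl, rfl⟩⟩
        · exact ⟨_, _, rfl, rfl, (β, t), a, Or.inr ⟨rfl, rfl⟩⟩
        · exact absurd rfl (ho l)
  let A : SimpleGraph (Option V) :=
    { Adj := fun u v => P.Adj u v ∧ (u ∈ D false ∨ v ∈ D false)
      symm := ⟨fun u v h => ⟨h.1.symm, h.2.symm⟩⟩
      loopless := ⟨fun u h => h.1.ne rfl⟩ }
  let B : SimpleGraph (Option V) :=
    { Adj := fun u v => P.Adj u v ∧ ¬ (u ∈ D false ∨ v ∈ D false)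
      symm := ⟨fun u v h => ⟨h.1.symm, fun h' => h.2 h'.symm⟩⟩
      loopless := ⟨fun u h => h.1.ne rfl⟩ }
  refine ⟨M, hM, A, B, ?_, ?_, key false A ?_, key true B ?_⟩
  · ext u v
    constructor
    · rintro (h | h)
      · exact h.1
      · exact h.1
    · intro h
      by_cases h' : u ∈ D false ∨ v ∈ D false
      · exact Or.inl ⟨h, h'⟩
      · exact Or.inr ⟨h, h'⟩
  · rw [disjoint_iff]
    ext u v
    simp only [SimpleGraph.inf_adj, SimpleGraph.bot_adj, iff_false, not_and]
    intro h1 h2
    exact h2.2 h1.2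
  · intro u v h hu _
    exact ⟨h, Or.inl hu⟩
  · intro u v h hu hv
    have h1 : ∀ w, w ∈ D true → w ∉ D false := by
      rintro w ⟨i, t, a, o, rfl⟩ ⟨i', t', a', o', h'⟩
      have := hφ (Option.some.inj h')
      simp at this
    have h2 : ∀ w, w ∈ X → w ∉ D false := by
      rintro w (rfl | ⟨j, rfl⟩) ⟨i', t', a', o', h'⟩
      · cases h'
      · exact hxφ _ _ (Option.some.inj h')
    refine ⟨h, ?_⟩
    rintro (h' | h')
    · exact h1 _ hu h'
    · rcases hv with hv | hv
      · exact h1 _ hv h'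
      · exact h2 _ hv h'

theorem st_all {C ι Λ : Type} (S : Finset ι) : ∀ (τ : Type) [Finite τ],
    ∃ (τ' : Type) (_ : Finite τ'), ∀ (V : Type) (G : SimpleGraph V),
      Has C (ι × τ') (Option Λ) V G → ForcesP (St C ι Λ (S : Set ι) τ) S.card V G := by
  classical
  induction S using Finset.induction_on with
  | empty =>
    intro τ _
    refine ⟨τ, inferInstance, fun V G h => ?_⟩
    simpa [ForcesP] using st_zero h
  | insert i S hi ih =>
    intro τ _
    obtain ⟨τ', hτ', h⟩ := ih (Bool × τ)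
    refine ⟨τ', hτ', fun V G hG => ?_⟩
    have h1 := forces_mono (Q := ForcesP (St C ι Λ (insert i (S : Set ι)) τ) 1)
      (fun V G hG => st_step (by simpa using hi) hG) _ _ _ (h V G hG)
    have h2 := forces_comp _ _ _ _ h1
    rw [Finset.card_insert_of_notMem hi, Finset.coe_insert, add_comm]
    exact h2

theorem has_of_st {C ι Λ : Type} [Inhabited C] {V : Type} {G : SimpleGraph V}
    (h : St C ι Λ Set.univ (Option Λ) V G) : Has (Option C) ι Λ V G := by
  obtain ⟨φ, x, hφ, hx, hxφ, e1, e2, e3, e4⟩ := h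
  refine ⟨fun p => match p with
    | (i, none, none) => x ⟨i, trivial⟩
    | (i, none, some l) => φ ((i, some l), default, some none)
    | (i, some a, none) => φ ((i, none), a, none)
    | (i, some a, some l) => φ ((i, none), a, some (some l)), ?_, ?_, ?_⟩
  · rintro ⟨i, _ | a, _ | l⟩ ⟨i', _ | a', _ | l'⟩ h
    · have := congrArg Subtype.val (hx h)
      simp only at this
      rw [this]
    · exact absurd h (hxφ _ _)
    · exact absurd h (hxφ _ _)
    · exact absurd h (hxφ _ _)
    · exact absurd h.symm (hxφ _ _)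
    · have := hφ h
      simpa using this
    · have := hφ h
      simp at this
    · have := hφ h
      simp at this
    · exact absurd h.symm (hxφ _ _)
    · have := hφ h
      simp at this
    · have := hφ h
      simpa using this
    · have := hφ h
      simp at this
    · exact absurd h.symm (hxφ _ _)
    · have := hφ h
      simp at this
    · have := hφ h
      simp at this
    · have := hφ h
      simpa using this
  · rintro i (_ | a) (_ | b) hab
    · exact absurd rfl hab
    · exact e4 ⟨i, trivial⟩ none b none (by simp)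
    · exact (e4 ⟨i, trivial⟩ none a none (by simp)).symm
    · exact e1 i none a b (fun h => hab (by rw [h]))
  · rintro i (_ | a) l
    · exact e4 ⟨i, trivial⟩ (some l) default (some none) (by simp)
    · exact e2 i none a l

/-- The star forest with stars indexed by `ι` and leaves of each star indexed by `Λ`. -/
def starForest (ι Λ : Type) : SimpleGraph (ι × Option Λ) where
  Adj u v := u.1 = v.1 ∧ ((u.2 = none ∧ v.2 ≠ none) ∨ (u.2 ≠ none ∧ v.2 = none))
  symm := ⟨by
    rintro u v ⟨h1, h2 | h2⟩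
    · exact ⟨h1.symm, Or.inr ⟨h2.2, h2.1⟩⟩
    · exact ⟨h1.symm, Or.inl ⟨h2.2, h2.1⟩⟩⟩
  loopless := ⟨by
    rintro u ⟨-, h | h⟩
    · exact h.2 h.1
    · exact h.1 h.2⟩

theorem starForest_acyclic (ι Λ : Type) : (starForest ι Λ).IsAcyclic := by
  have key : ∀ u v : ι × Option Λ, (starForest ι Λ).Adj u v → v.2 ≠ none →
      ¬ ((starForest ι Λ) \ fromEdgeSet {s(u, v)}).Reachable u v := by
    rintro ⟨i, o⟩ ⟨j, o'⟩ ⟨h1, h2⟩ hv hr
    simp only at h1 h2 hv
    subst h1
    have ho : o = none := by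
      rcases h2 with h2 | h2
      · exact h2.1
      · exact absurd h2.2 hv
    subst ho
    obtain ⟨w⟩ := hr.symm
    cases w with
    | nil => exact hv rfl
    | cons h p =>
      rename_i c
      obtain ⟨h3, h4⟩ := h
      obtain ⟨h5, h6⟩ := h3
      obtain ⟨ci, co⟩ := c
      simp only at h5 h6
      subst h5
      have hc : co = none := by
        rcases h6 with h6 | h6
        · exact absurd h6.1 hv
        · exact h6.2
      subst hc
      apply h4
      rw [fromEdgeSet_adj]
      refine ⟨?_, ?_⟩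
      · simp [Sym2.eq_swap]
      · intro h
        simp only [Prod.mk.injEq, true_and] at h
        exact hv h
  rw [isAcyclic_iff_forall_isBridge]
  intro e he
  induction e using Sym2.ind with
  | _ u v =>
    rw [mem_edgeSet] at he
    rw [isBridge_iff]
    by_cases hv : v.2 = none
    · have hu : u.2 ≠ none := by
        rcases he.2 with h | h
        · exact absurd hv h.2
        · exact h.1
      intro hr
      apply key v u he.symm hu
      rw [Sym2.eq_swap] at hr
      exact hr.symm
    · exact key u v he hv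

theorem has_starForest (ι Λ : Type) : Has Unit ι Λ (ι × Option Λ) (starForest ι Λ) := by
  refine ⟨fun p => (p.1, p.2.2), ?_, ?_, ?_⟩
  · rintro ⟨i, ⟨⟩, o⟩ ⟨i', ⟨⟩, o'⟩ h
    simpa using h
  · intro i a b hab
    exact absurd rfl hab
  · intro i a l
    exact ⟨rfl, Or.inl ⟨rfl, by simp⟩⟩

/-- For every `k` one can force many disjoint copies of `K_{k+1}` with many private leaves,
starting from a finite forest. -/
theorem force_many (k : ℕ) : ∃ (C : Type) (_ : Fintype C) (_ : Inhabited C),
    Fintype.card C = k + 1 ∧ ∀ (ι Λ : Type) [Finite ι] [Finite Λ],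
      ∃ (V : Type) (_ : Finite V) (G : SimpleGraph V), G.IsAcyclic ∧
        ∃ t, ForcesP (Has C ι Λ) t V G := by
  induction k with
  | zero =>
    refine ⟨Unit, inferInstance, inferInstance, by simp, fun ι Λ _ _ => ?_⟩
    exact ⟨ι × Option Λ, inferInstance, starForest ι Λ, starForest_acyclic ι Λ, 0,
      has_starForest ι Λ⟩
  | succ k ih =>
    obtain ⟨C, hC1, hC2, hC3, h⟩ := ih
    refine ⟨Option C, inferInstance, inferInstance, by simp [hC3], fun ι Λ _ _ => ?_⟩
    have := Fintype.ofFinite ι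
    obtain ⟨τ', hτ', h'⟩ := st_all (C := C) (Λ := Λ) (Finset.univ : Finset ι) (Option Λ)
    obtain ⟨V, hV, G, hG, t, ht⟩ := h (ι × τ') (Option Λ)
    have h2 : ∀ (W : Type) (H : SimpleGraph W), Has C (ι × τ') (Option Λ) W H →
        ForcesP (Has (Option C) ι Λ) (Finset.univ : Finset ι).card W H := by
      intro W H hW
      refine forces_mono ?_ _ _ _ (h' W H hW)
      intro W' H' hW'
      rw [Finset.coe_univ] at hW'
      exact has_of_st hW'
    exact ⟨V, hV, G, hG, _, forces_comp _ _ _ _ (forces_mono h2 _ _ _ ht)⟩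

theorem hasClique_of_has {C : Type} [Fintype C] {k : ℕ} (hk : Fintype.card C = k)
    {V : Type} {G : SimpleGraph V} (h : Has C Unit Unit V G) : HasClique k V G := by
  classical
  obtain ⟨φ, h1, h2, -⟩ := h
  have hinj : Function.Injective (fun a : C => φ ((), a, none)) := by
    intro a b hab
    have := h1 hab
    simpa using this
  intro hfree
  apply hfree (Finset.univ.map ⟨_, hinj⟩)
  rw [isNClique_iff]
  refine ⟨?_, by simp [hk]⟩
  intro u hu v hv huv
  simp only [Finset.coe_map, Function.Embedding.coeFn_mk, Finset.coe_univ, Set.image_univ,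
    Set.mem_range] at hu hv
  obtain ⟨a, rfl⟩ := hu
  obtain ⟨b, rfl⟩ := hv
  exact h2 () a b (fun h => huv (by rw [h]))

/-! ### Transport to `Fin n` -/

theorem forces_iso {k : ℕ} : ∀ (t : ℕ) (V W : Type) (G : SimpleGraph V) (H : SimpleGraph W)
    (_ : G ≃g H), ForcesP (HasClique k) t V G → ForcesP (HasClique k) t W H := by
  intro t
  induction t with
  | zero =>
    intro V W G H e h hfree
    exact h (hfree.comap ⟨e.toEmbedding.toCopy⟩)
  | succ t ih =>
    rintro V W G H e ⟨M, hM, A, B, h1, h2, h3, h4⟩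
    let f : V ≃ W := e.toEquiv
    let g : Option V ≃ Option W := Equiv.optionCongr f
    have hadj : ∀ a b, H.Adj a b ↔ G.Adj (f.symm a) (f.symm b) := by
      intro a b
      have := e.map_adj_iff (v := f.symm a) (w := f.symm b)
      rw [← this]
      change H.Adj a b ↔ H.Adj (f (f.symm a)) (f (f.symm b))
      simp
    let M' : SimpleGraph W := M.comap f.symm
    let A' : SimpleGraph (Option W) := A.comap g.symm
    let B' : SimpleGraph (Option W) := B.comap g.symm
    have hgrow : ∀ u v, (grow H M').Adj u v ↔ (grow G M).Adj (g.symm u) (g.symm v) := by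
      intro u v
      constructor
      · rintro (⟨a, b, rfl, rfl, h5, h6⟩ | ⟨a, c, rfl, rfl, h5⟩ | ⟨a, c, rfl, rfl, h5⟩)
        · exact Or.inl ⟨f.symm a, f.symm b, rfl, rfl, (hadj _ _).1 h5, h6⟩
        · exact Or.inr (Or.inl ⟨f.symm a, f.symm c, rfl, rfl, h5⟩)
        · exact Or.inr (Or.inr ⟨f.symm a, f.symm c, rfl, rfl, h5⟩)
      · rintro (⟨a, b, h7, h8, h5, h6⟩ | ⟨a, c, h7, h8, h5⟩ | ⟨a, c, h7, h8, h5⟩)
        · rw [Equiv.symm_apply_eq] at h7 h8
          refine Or.inl ⟨f a, f b, h7, h8, ?_, ?_⟩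
          · rw [hadj]; simpa using h5
          · change ¬ M.Adj (f.symm (f a)) (f.symm (f b))
            simpa using h6
        · rw [Equiv.symm_apply_eq] at h7 h8
          refine Or.inr (Or.inl ⟨f a, f c, h7, h8, ?_⟩)
          change M.Adj (f.symm (f a)) (f.symm (f c))
          simpa using h5
        · rw [Equiv.symm_apply_eq] at h7 h8
          refine Or.inr (Or.inr ⟨f a, f c, h7, h8, ?_⟩)
          change M.Adj (f.symm (f a)) (f.symm (f c))
          simpa using h5
    refine ⟨M', ⟨?_, ?_⟩, A', B', ?_, ?_, ?_, ?_⟩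
    · intro a b hab
      exact (hadj _ _).2 (hM.1 hab)
    · intro a b c hab hac
      exact f.symm.injective (hM.2 _ _ _ hab hac)
    · ext u v
      rw [hgrow, ← h1]
      rfl
    · rw [disjoint_iff] at h2 ⊢
      ext u v
      have := congrArg (fun K : SimpleGraph (Option V) => K.Adj (g.symm u) (g.symm v)) h2
      simpa [A', B'] using this
    · exact ih _ _ A A' ⟨g, by intro a b; simp [A']⟩ h3
    · exact ih _ _ B B' ⟨g, by intro a b; simp [B']⟩ h4

theorem exists_forest (k : ℕ) : ∃ (n : ℕ) (G : SimpleGraph (Fin n)) (t : ℕ),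
    G.IsAcyclic ∧ ForcesP (HasClique k) t (Fin n) G := by
  rcases k with _ | k
  · refine ⟨0, ⊥, 0, ?_, ?_⟩
    · intro v; exact v.elim0
    · intro h
      exact h ∅ (by simp [isNClique_iff])
  · obtain ⟨C, hC1, hC2, hC3, h⟩ := force_many k
    obtain ⟨V, hV, G, hG, t, ht⟩ := h Unit Unit
    have := Fintype.ofFinite V
    have e : V ≃ Fin (Fintype.card V) := Fintype.equivFin V
    have iso : G ≃g G.map e.toEmbedding := SimpleGraph.Iso.map e G
    refine ⟨Fintype.card V, G.map e.toEmbedding, t, ?_, ?_⟩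
    · exact (Iso.isAcyclic_iff iso).1 hG
    · exact forces_iso t _ _ _ _ iso
        (forces_mono (fun W H hW => hasClique_of_has hC3 hW) t _ _ ht)

/-- **MP_d3b86e_co, Q1.** For every `k` there is a constant `T` with `ρ(k,g) ≤ T` for all `g`; in
particular `ρ(k,g) < ∞` for all `k` and `g`. -/
theorem result : ∀ k : ℕ, ∃ T : ℕ, ∀ g : ℕ, rho k g ≤ T := by
  intro k
  obtain ⟨n, G, t, hG, ht⟩ := exists_forest k
  refine ⟨t, fun g => ?_⟩
  refine le_trans (iInf_le _ n) (le_trans (iInf_le _ G) (le_trans (iInf_le _ ?_) ?_))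
  · rw [egirth_eq_top.2 hG]
    exact le_top
  · exact le_trans (iInf_le _ t) (iInf_le _ ht)

end Pool.Agent.Results.MP_d3b86e_co.CliqueForcing
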